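import Pool.Agent.V11328.B3.Blocks

/-! Locally dependent random graphs that are connected far below the threshold `ln n / n`. -/

open MeasureTheory ProbabilityTheory Finset unitInterval Filter Topology Asymptotics

namespace Pool.Agent.Results.MP_b3d828_pr.Connected

open Pool.Agent.V11328.Dep Pool.Agent.V11328.B3

variable {n h : ℕ}

lemma prob_zero (p : I) (T : Finset (Idx n h)) {a : ℕ} (ha : a ≤ #T) :
    (prod (Idx n h) p).real {ω | ∀ x ∈ T, ω x = false} ≤ Real.exp (-((p : ℝ) * a)) := by
  classical
  rw [prod_box p T false]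
  simp only [Bool.false_eq_true, if_false]
  have h0 : 0 ≤ 1 - (p : ℝ) := by linarith [p.2.2]
  have h1 : 1 - (p : ℝ) ≤ 1 := by linarith [p.2.1]
  calc (1 - (p : ℝ)) ^ #T ≤ (1 - (p : ℝ)) ^ a := pow_le_pow_of_le_one h0 h1 ha
    _ ≤ Real.exp (-(p : ℝ)) ^ a := by
        apply pow_le_pow_left₀ h0
        have := Real.add_one_le_exp (-(p : ℝ))
        linarith
    _ = Real.exp (-((p : ℝ) * a)) := by
        rw [← Real.exp_nat_mul]; congr 1; ring

/-- The bound on the probability of being disconnected. -/
lemma disconnected_le (hn : 2 * h + 1 ≤ n) (p : I) :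
    (law (var h) p).real {G : SimpleGraph (Fin n) | ¬ G.Connected} ≤
      (2 * h + 1 : ℕ) * Real.exp (-((p : ℝ) * (h * (n / (2 * h + 1)) : ℕ))) +
      ((Real.exp (-((p : ℝ) * (h * (n / (2 * h + 1)) : ℕ))) + 1) ^ (2 * h + 1) - 1) := by
  classical
  set x := Real.exp (-((p : ℝ) * (h * (n / (2 * h + 1)) : ℕ))) with hx
  have hx0 : 0 < x := Real.exp_pos _
  rw [law_real]
  set S : Finset (Finset (Fin (2 * h + 1))) := univ.filter (fun A => A.Nonempty ∧ #A ≤ h) with hS
  have hsub : gph (var h) ⁻¹' {G : SimpleGraph (Fin n) | ¬ G.Connected} ⊆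
      (⋃ i ∈ (univ : Finset (Fin (2 * h + 1))), {ω | ∀ x ∈ TA n i, ω x = false}) ∪
      (⋃ A ∈ S, {ω | ∀ x ∈ TB n A, ω x = false}) := by
    intro ω hω
    by_contra hcon
    rw [Set.mem_union, not_or] at hcon
    simp only [Set.mem_iUnion, not_exists] at hcon
    apply hω
    apply connected_of hn ω
    · intro i
      have h1 := hcon.1 i (mem_univ i)
      simp only [Set.mem_ofPred_eq] at h1
      push Not at h1
      obtain ⟨y, hy, hyt⟩ := h1
      simp only [TA, mem_filter, mem_univ, true_and] at hy
      obtain ⟨w, rfl, harc⟩ := hy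
      exact ⟨blk h w, harc, w, rfl, by simpa using hyt⟩
    · intro A hA hAne
      have hcase : ∃ A' ∈ S, (∀ z, z ∈ A' ↔ z ∈ A) ∨ (∀ z, z ∈ A' ↔ z ∉ A) := by
        by_cases hc : #A ≤ h
        · exact ⟨A, by simp [hS, hA, hc], Or.inl fun z => Iff.rfl⟩
        · refine ⟨univ \ A, ?_, Or.inr fun z => by simp⟩
          simp only [hS, mem_filter, mem_univ, true_and]
          constructor
          · rw [Finset.sdiff_nonempty]
            intro hsub
            exact hAne (subset_antisymm (subset_univ _) hsub)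
          · rw [card_sdiff_of_subset (subset_univ _), card_univ, Fintype.card_fin]
            omega
      obtain ⟨A', hA', hAA⟩ := hcase
      have h1 := hcon.2 A' hA'
      simp only [Set.mem_ofPred_eq] at h1
      push Not at h1
      obtain ⟨y, hy, hyt⟩ := h1
      simp only [TB, mem_filter, mem_univ, true_and] at hy
      obtain ⟨w, i, rfl, harc, hiff⟩ := hy
      have hwt : ω (Sum.inl (w, i)) = true := by simpa using hyt
      have hiff2 : blk h w ∈ A ↔ i ∉ A := by
        rcases hAA with h2 | h2
        · rw [← h2, ← h2]; exact hiff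
        · rw [h2, h2, not_not] at hiff
          tauto
      by_cases hwA : blk h w ∈ A
      · exact ⟨_, hwA, i, hiff2.1 hwA, Or.inl ⟨harc, w, rfl, hwt⟩⟩
      · have hiA : i ∈ A := by
          by_contra hi
          exact hwA (hiff2.2 hi)
        exact ⟨i, hiA, _, hwA, Or.inr ⟨harc, w, rfl, hwt⟩⟩
  refine (measureReal_mono hsub (measure_ne_top _ _)).trans ?_
  refine (measureReal_union_le _ _).trans ?_
  refine add_le_add ?_ ?_
  · refine (measureReal_biUnion_finset_le _ _).trans ?_
    refine (Finset.sum_le_sum fun i _ => prob_zero p (TA n i) (card_TA i)).trans ?_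
    rw [Finset.sum_const, card_univ, Fintype.card_fin, nsmul_eq_mul]
  · refine (measureReal_biUnion_finset_le _ _).trans ?_
    have hterm : ∀ A ∈ S, (prod (Idx n h) p).real {ω | ∀ x ∈ TB n A, ω x = false} ≤ x ^ #A := by
      intro A hA
      simp only [hS, mem_filter, mem_univ, true_and] at hA
      have h1 : #A * (h * (n / (2 * h + 1))) ≤ #(TB n A) := by
        refine le_trans ?_ (card_TB A)
        have h2 : h ≤ #(univ \ A) := by
          rw [card_sdiff_of_subset (subset_univ _), card_univ, Fintype.card_fin]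
          omega
        rw [← mul_assoc]
        exact Nat.mul_le_mul_right _ (Nat.mul_le_mul_left _ h2)
      refine (prob_zero p (TB n A) h1).trans (le_of_eq ?_)
      rw [hx, ← Real.exp_nat_mul]
      congr 1
      push_cast
      ring
    refine (Finset.sum_le_sum hterm).trans ?_
    have hall : ∑ A ∈ (univ : Finset (Fin (2 * h + 1))).powerset, x ^ #A = (x + 1) ^ (2 * h + 1) := by
      have := Finset.sum_pow_mul_eq_add_pow x 1 (univ : Finset (Fin (2 * h + 1)))
      simp only [one_pow, mul_one, card_univ, Fintype.card_fin] at this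
      exact this
    have hle : ∑ A ∈ insert ∅ S, x ^ #A ≤ (x + 1) ^ (2 * h + 1) := by
      rw [← hall]
      refine Finset.sum_le_sum_of_subset_of_nonneg ?_ (fun A _ _ => by positivity)
      intro A _
      simp
    rw [Finset.sum_insert (by simp [hS])] at hle
    simp only [card_empty, pow_zero] at hle
    linarith

/-- Numerical estimate. -/
lemma numeric {k : ℕ} (hk : 1 ≤ k) {x : ℝ} (hx0 : 0 ≤ x) (hx : x ≤ 1 / (k : ℝ) ^ 2) :
    (k : ℝ) * x + ((x + 1) ^ k - 1) ≤ 3 / k := by
  have hk0 : (1 : ℝ) ≤ k := by exact_mod_cast hk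
  have h1 : (k : ℝ) * x ≤ 1 / k := by
    calc (k : ℝ) * x ≤ k * (1 / (k : ℝ) ^ 2) := mul_le_mul_of_nonneg_left hx (by linarith)
      _ = 1 / k := by field_simp
  have h2 : (x + 1) ^ k ≤ Real.exp (k * x) := by
    rw [Real.exp_nat_mul]
    exact pow_le_pow_left₀ (by linarith) (Real.add_one_le_exp x) k
  have h3 : Real.exp (k * x) ≤ Real.exp (1 / k) := Real.exp_le_exp.2 h1
  have h4 : (1 : ℝ) / k ≤ 1 := by
    rw [div_le_one (by linarith)]; exact hk0
  have h5 : 0 ≤ (1 : ℝ) / k := by positivity
  have h6 := abs_le.1 (Real.abs_exp_sub_one_sub_id_le (x := 1 / (k : ℝ))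
    (by rw [abs_of_nonneg h5]; exact h4))
  have h7 : (1 / (k : ℝ)) ^ 2 ≤ 1 / k := by nlinarith
  have h8 : (3 : ℝ) / k = 1 / k + 2 * (1 / k) := by ring
  rw [h8]
  linarith [h6.2]

/-- Half the number of blocks. -/
noncomputable def hh (n : ℕ) : ℕ := ⌊Real.log n⌋₊

/-- The edge probability. -/
noncomputable def pp (n : ℕ) : ℝ := min 1 (12 * Real.log (2 * hh n + 1 : ℕ) / n)

lemma pp_mem (n : ℕ) : pp n ∈ I := by
  refine ⟨?_, min_le_left _ _⟩
  rw [pp, le_min_iff]
  refine ⟨zero_le_one, ?_⟩
  have : 0 ≤ Real.log (2 * hh n + 1 : ℕ) := Real.log_nonneg (by norm_cast; omega)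
  positivity

lemma hh_tendsto : Tendsto hh atTop atTop :=
  tendsto_nat_floor_atTop.comp (Real.tendsto_log_atTop.comp tendsto_natCast_atTop_atTop)

lemma log_tendsto : Tendsto (fun n : ℕ => Real.log (n : ℝ)) atTop atTop :=
  Real.tendsto_log_atTop.comp tendsto_natCast_atTop_atTop

lemma loglog_tendsto : Tendsto (fun n : ℕ => Real.log (Real.log (n : ℝ))) atTop atTop :=
  Real.tendsto_log_atTop.comp log_tendsto

lemma pp_bigO : pp =O[atTop] (fun n : ℕ => Real.log (Real.log n) / n) := by
  refine IsBigO.of_bound 24 ?_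
  filter_upwards [log_tendsto.eventually_ge_atTop 1,
    loglog_tendsto.eventually_ge_atTop (Real.log 3), eventually_ge_atTop 1] with n h1 h2 h3
  have hn : (1 : ℝ) ≤ n := by exact_mod_cast h3
  have hl3 : 0 < Real.log 3 := Real.log_pos (by norm_num)
  rw [Real.norm_of_nonneg (pp_mem n).1, Real.norm_of_nonneg (div_nonneg (by linarith) (by linarith))]
  refine (min_le_right _ _).trans ?_
  rw [mul_div_assoc, ← mul_div_assoc, ← mul_div_assoc]
  refine div_le_div_of_nonneg_right ?_ (by linarith)
  have h4 : Real.log (2 * hh n + 1 : ℕ) ≤ Real.log (3 * Real.log n) := by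
    refine Real.log_le_log (by positivity) ?_
    push_cast
    have h5 : (hh n : ℝ) ≤ Real.log n := Nat.floor_le (by linarith)
    linarith
  rw [Real.log_mul (by norm_num) (by linarith)] at h4
  linarith

lemma pp_littleo : pp =o[atTop] (fun n : ℕ => Real.log n / n) := by
  refine pp_bigO.trans_isLittleO ?_
  have h1 : (fun n : ℕ => Real.log (Real.log (n : ℝ))) =o[atTop] (fun n : ℕ => Real.log (n : ℝ)) :=
    Real.isLittleO_log_id_atTop.comp_tendsto log_tendsto
  have h2 := h1.mul_isBigO (isBigO_refl (fun n : ℕ => ((n : ℝ))⁻¹) atTop)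
  simpa [div_eq_mul_inv] using h2

/-- There are locally dependent random graphs with dependency degree `O(n / ln n)` and edge
probability `O(ln ln n / n)`, which is `o(ln n / n)`, that are connected with probability tending to
one. -/
theorem result : ∃ (d : ℕ → ℕ) (p : ℕ → ℝ) (μ : ∀ n, Measure (SimpleGraph (Fin n))),
    (fun n => (d n : ℝ)) =O[atTop] (fun n : ℕ => (n : ℝ) / Real.log n) ∧
    p =O[atTop] (fun n : ℕ => Real.log (Real.log n) / n) ∧
    p =o[atTop] (fun n : ℕ => Real.log n / n) ∧
    (∀ n, IsDep n (d n) (p n) (μ n)) ∧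
    Tendsto (fun n => (μ n).real {G | G.Connected}) atTop (𝓝 1) := by
  refine ⟨fun n => n / (2 * hh n + 1), pp, fun n => law (var (hh n)) ⟨pp n, pp_mem n⟩,
    ?_, pp_bigO, pp_littleo, ?_, ?_⟩
  · refine IsBigO.of_bound 1 ?_
    filter_upwards [log_tendsto.eventually_ge_atTop 1] with n h1
    rw [Real.norm_of_nonneg (by positivity), Real.norm_of_nonneg (by positivity), one_mul]
    refine Nat.cast_div_le.trans ?_
    refine div_le_div_of_nonneg_left (by positivity) (by linarith) ?_
    push_cast
    have h2 : Real.log n < hh n + 1 := Nat.lt_floor_add_one _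
    have h3 : (0 : ℝ) ≤ hh n := Nat.cast_nonneg _
    have h4 : (1 : ℝ) ≤ hh n := by
      have : 1 ≤ hh n := Nat.le_floor (by simpa using h1)
      exact_mod_cast this
    linarith
  · intro n
    exact law_isDep (var (hh n)) ⟨pp n, pp_mem n⟩ _ fiber
  · -- probability of connectivity
    have hlim : Tendsto (fun n : ℕ => 1 - 3 / ((2 * hh n + 1 : ℕ) : ℝ)) atTop (𝓝 1) := by
      have h1 : Tendsto (fun n : ℕ => (3 : ℝ) / ((2 * hh n + 1 : ℕ) : ℝ)) atTop (𝓝 0) := by
        apply Tendsto.div_atTop tendsto_const_nhds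
        apply tendsto_natCast_atTop_atTop.comp
        exact tendsto_atTop_mono (fun n => by omega) hh_tendsto
      have := (tendsto_const_nhds (x := (1 : ℝ))).sub h1
      simpa using this
    refine tendsto_of_tendsto_of_tendsto_of_le_of_le' hlim tendsto_const_nhds ?_ ?_
    · have hlog2 : Tendsto (fun n : ℕ => Real.log (n : ℝ) / n) atTop (𝓝 0) := by
        have := Real.isLittleO_log_id_atTop.tendsto_div_nhds_zero.comp
          (tendsto_natCast_atTop_atTop (R := ℝ))
        exact this
      filter_upwards [hh_tendsto.eventually_ge_atTop 1, eventually_ge_atTop 1,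
        hlog2.eventually_le_const (show (0 : ℝ) < 1 / 36 by norm_num),
        log_tendsto.eventually_ge_atTop 1] with n h1 h2 h3 h4
      set k := 2 * hh n + 1 with hk
      have hn0 : (1 : ℝ) ≤ n := by exact_mod_cast h2
      rw [div_le_iff₀ (by linarith)] at h3
      have hhle : (hh n : ℝ) ≤ Real.log n := Nat.floor_le (by linarith)
      have hkn : k ≤ n := by
        have : ((k : ℕ) : ℝ) ≤ n := by
          rw [hk]; push_cast; linarith
        exact_mod_cast this
      have hk3 : 3 ≤ k := by omega
      have hk3R : (3 : ℝ) ≤ k := by exact_mod_cast hk3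
      have hkR : (k : ℝ) = 2 * hh n + 1 := by rw [hk]; push_cast; ring
      -- value of `p`
      have hlogk : Real.log k ≤ k := by
        have := Real.log_le_sub_one_of_pos (show (0 : ℝ) < k by linarith)
        linarith
      have hp : pp n = 12 * Real.log k / n := by
        rw [pp, ← hk, min_eq_right]
        rw [div_le_one (by linarith)]
        have : (k : ℝ) ≤ 3 * Real.log n := by rw [hkR]; linarith
        linarith
      have hE : Real.exp (-(pp n * ((hh n * (n / k) : ℕ) : ℝ))) ≤ 1 / (k : ℝ) ^ 2 := by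
        have h5 : (1 : ℝ) / (k : ℝ) ^ 2 = Real.exp (-(2 * Real.log k)) := by
          rw [Real.exp_neg, mul_comm, Real.exp_mul, Real.exp_log (by linarith)]
          simp
        rw [h5]
        refine Real.exp_le_exp.2 (neg_le_neg ?_)
        have h6 : (n : ℝ) / (2 * k) ≤ ((n / k : ℕ) : ℝ) := by
          have h7 : (n : ℝ) / k < ((n / k : ℕ) : ℝ) + 1 := by
            rw [div_lt_iff₀ (by linarith)]
            have := Nat.lt_div_mul_add (a := n) (b := k) (by omega)
            have h8 : ((n : ℕ) : ℝ) < ((n / k * k + k : ℕ) : ℝ) := by exact_mod_cast this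
            push_cast at h8 ⊢
            linarith
          have h9 : (1 : ℝ) ≤ ((n / k : ℕ) : ℝ) := by
            have : 1 ≤ n / k := (Nat.one_le_div_iff (by omega)).2 hkn
            exact_mod_cast this
          have h10 : (n : ℝ) / (2 * k) = (n : ℝ) / k / 2 := by field_simp
          rw [h10]
          linarith
        have h11 : (k : ℝ) / 3 ≤ hh n := by
          have : (1 : ℝ) ≤ hh n := by exact_mod_cast h1
          rw [hkR]; linarith
        have h12 : (k : ℝ) / 3 * (n / (2 * k)) ≤ (hh n : ℝ) * ((n / k : ℕ) : ℝ) :=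
          mul_le_mul h11 h6 (by positivity) (by positivity)
        have h13 : (k : ℝ) / 3 * (n / (2 * k)) = n / 6 := by
          field_simp
          ring
        rw [h13] at h12
        have hlk0 : 0 ≤ Real.log k := Real.log_nonneg (by linarith)
        rw [hp]
        push_cast
        have h14 : 12 * Real.log k / n * (n / 6) ≤
            12 * Real.log k / n * ((hh n : ℝ) * ((n / k : ℕ) : ℝ)) :=
          mul_le_mul_of_nonneg_left h12 (by positivity)
        have h15 : 12 * Real.log k / n * (n / 6) = 2 * Real.log k := by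
          field_simp
          ring
        linarith
      have hdis := disconnected_le (h := hh n) (n := n) hkn ⟨pp n, pp_mem n⟩
      have hnum := numeric (k := k) (by omega) (Real.exp_pos _).le hE
      have h20 : (law (var (hh n)) ⟨pp n, pp_mem n⟩).real
          {G : SimpleGraph (Fin n) | ¬ G.Connected} ≤ 3 / ((2 * hh n + 1 : ℕ) : ℝ) :=
        hdis.trans hnum
      have hcompl : (law (var (hh n)) ⟨pp n, pp_mem n⟩).real {G : SimpleGraph (Fin n) | ¬ G.Connected}
          = 1 - (law (var (hh n)) ⟨pp n, pp_mem n⟩).real {G : SimpleGraph (Fin n) | G.Connected} := by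
        have hprob : IsProbabilityMeasure (law (var (hh n)) (⟨pp n, pp_mem n⟩ : I)
            : Measure (SimpleGraph (Fin n))) :=
          (law_isDep (var (hh n)) ⟨pp n, pp_mem n⟩ _ fiber).prob
        have : {G : SimpleGraph (Fin n) | ¬ G.Connected} = {G : SimpleGraph (Fin n) | G.Connected}ᶜ := by
          ext G; simp
        rw [this, probReal_compl_eq_one_sub (meas _)]
      rw [hcompl] at h20
      linarith
    · refine Eventually.of_forall fun n => ?_
      have hprob : IsProbabilityMeasure (law (var (hh n)) (⟨pp n, pp_mem n⟩ : I)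
          : Measure (SimpleGraph (Fin n))) :=
        (law_isDep (var (hh n)) ⟨pp n, pp_mem n⟩ _ fiber).prob
      exact measureReal_le_one

end Pool.Agent.Results.MP_b3d828_pr.Connected
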